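import Mathlib

set_option autoImplicit false

namespace Pool.Agent.Results.MP_294a3d_co.Fan

open Finset SimpleGraph

/-- No induced cycle of length at least four. -/
def Chordal {V : Type} (G : SimpleGraph V) : Prop := ∀ m : ℕ, 4 ≤ m → IsEmpty (cycleGraph m ↪g G)

def Simplicial {V : Type} (G : SimpleGraph V) (v : V) : Prop := G.IsClique (G.neighborSet v)

/-- Remove two pebbles from `u` and add one to `v`. -/
def move {V : Type} [DecidableEq V] (A : V → ℕ) (u v : V) : V → ℕ :=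
  fun x => if x = u then A x - 2 else if x = v then A x + 1 else A x

def Step {V : Type} [DecidableEq V] (G : SimpleGraph V) (A B : V → ℕ) : Prop :=
  ∃ u v : V, G.Adj u v ∧ 2 ≤ A u ∧ B = move A u v

def Solvable {V : Type} [DecidableEq V] (G : SimpleGraph V) (D C : V → ℕ) : Prop :=
  ∃ B, Relation.ReflTransGen (Step G) C B ∧ ∀ v, D v ≤ B v

def IsMaximal {V : Type} [DecidableEq V] (G : SimpleGraph V) (D C : V → ℕ) : Prop :=
  ¬ Solvable G D C ∧ ∀ v, Solvable G D (C + Pi.single v 1)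

def Extremal {V : Type} [Fintype V] [DecidableEq V] (G : SimpleGraph V) (D C : V → ℕ) : Prop :=
  IsMaximal G D C ∧ ∀ C', IsMaximal G D C' → ∑ v, C' v ≤ ∑ v, C v

/-- The path `0,1,2,3,4` and a vertex `5` joined to all of it. -/
def fan : SimpleGraph (Fin 6) where
  Adj a b := a ≠ b ∧ (a.1 + 1 = b.1 ∨ b.1 + 1 = a.1 ∨ a.1 = 5 ∨ b.1 = 5)
  symm := ⟨fun a b h => ⟨h.1.symm, by omega⟩⟩
  loopless := ⟨fun a h => h.1 rfl⟩

instance : DecidableRel fan.Adj := fun a b => by unfold fan; infer_instance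

def D0 : Fin 6 → ℕ := ![1, 0, 0, 0, 1, 0]

theorem c4 : ∀ a b c d : Fin 6, fan.Adj a b → fan.Adj b c → fan.Adj c d → fan.Adj d a →
    a ≠ c → b ≠ d → fan.Adj a c ∨ fan.Adj b d := by decide +kernel

set_option synthInstance.maxSize 2000 in
theorem c5 : ∀ a b : Fin 6, fan.Adj a b → ∀ c, fan.Adj b c → ¬ fan.Adj a c → a ≠ c →
    ∀ d, fan.Adj c d → ¬ fan.Adj b d → b ≠ d → ¬ fan.Adj a d → a ≠ d →
    ∀ e, fan.Adj a e → ¬ fan.Adj c e → c ≠ e → ¬ fan.Adj b e → b ≠ e →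
    ¬ fan.Adj d e ∧ ∀ f, fan.Adj d f → fan.Adj e f → fan.Adj a f := by decide +kernel

theorem chordal : Chordal fan := by
  intro m hm
  refine ⟨fun f => ?_⟩
  have h6 : m ≤ 6 := by simpa using Fintype.card_le_of_injective f f.injective
  have hne : ∀ i j : Fin m, i ≠ j → f i ≠ f j := fun i j hij e => hij (f.injective e)
  have h : ∀ i j, (cycleGraph m).Adj i j → fan.Adj (f i) (f j) := fun i j h => f.map_rel_iff.2 h
  have g : ∀ i j, ¬ (cycleGraph m).Adj i j → ¬ fan.Adj (f i) (f j) :=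
    fun i j h h' => h (f.map_rel_iff.1 h')
  obtain rfl | rfl | rfl : m = 4 ∨ m = 5 ∨ m = 6 := by omega
  · rcases c4 (f 0) (f 1) (f 2) (f 3) (h _ _ (by decide)) (h _ _ (by decide)) (h _ _ (by decide))
      (h _ _ (by decide)) (hne _ _ (by decide)) (hne _ _ (by decide)) with h | h
    · exact g 0 2 (by decide) h
    · exact g 1 3 (by decide) h
  · exact (c5 (f 0) (f 1) (h _ _ (by decide)) (f 2) (h _ _ (by decide)) (g _ _ (by decide))
      (hne _ _ (by decide)) (f 3) (h _ _ (by decide)) (g _ _ (by decide)) (hne _ _ (by decide))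
      (g _ _ (by decide)) (hne _ _ (by decide)) (f 4) (h _ _ (by decide)) (g _ _ (by decide))
      (hne _ _ (by decide)) (g _ _ (by decide)) (hne _ _ (by decide))).1 (h _ _ (by decide))
  · exact g 0 4 (by decide) ((c5 (f 0) (f 1) (h _ _ (by decide)) (f 2) (h _ _ (by decide))
      (g _ _ (by decide))
      (hne _ _ (by decide)) (f 3) (h _ _ (by decide)) (g _ _ (by decide)) (hne _ _ (by decide))
      (g _ _ (by decide)) (hne _ _ (by decide)) (f 5) (h _ _ (by decide)) (g _ _ (by decide))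
      (hne _ _ (by decide)) (g _ _ (by decide)) (hne _ _ (by decide))).2 (f 4)
      (h _ _ (by decide)) (h _ _ (by decide)))

theorem mono (D A B : Fin 6 → ℕ) (h : Solvable fan D A) (hAB : ∀ v, A v ≤ B v) :
    Solvable fan D B := by
  obtain ⟨A', h1, h2⟩ := h
  have key : ∀ A', Relation.ReflTransGen (Step fan) A A' →
      ∃ B', Relation.ReflTransGen (Step fan) B B' ∧ ∀ v, A' v ≤ B' v := by
    intro A' h
    induction h with
    | refl => exact ⟨B, .refl, hAB⟩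
    | tail _ h ih =>
      obtain ⟨B', h3, h4⟩ := ih
      obtain ⟨u, v, huv, h5, rfl⟩ := h
      refine ⟨move B' u v, h3.tail ⟨u, v, huv, h5.trans (h4 u), rfl⟩, fun x => ?_⟩
      have := h4 x
      unfold move
      split_ifs <;> omega
  obtain ⟨B', h3, h4⟩ := key A' h1
  exact ⟨B', h3, fun v => (h2 v).trans (h4 v)⟩

def run (A : Fin 6 → ℕ) : List (Fin 6 × Fin 6) → Bool
  | [] => decide (∀ v, D0 v ≤ A v)
  | p :: L => decide (fan.Adj p.1 p.2) && decide (2 ≤ A p.1) && run (move A p.1 p.2) L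

theorem run_ok : ∀ (L : List (Fin 6 × Fin 6)) (A : Fin 6 → ℕ), run A L = true →
    Solvable fan D0 A := by
  intro L
  induction L with
  | nil => intro A h; exact ⟨A, .refl, by simpa [run] using h⟩
  | cons p L ih =>
    intro A h
    simp only [run, Bool.and_eq_true, decide_eq_true_eq] at h
    obtain ⟨B, h1, h2⟩ := ih _ h.2
    exact ⟨B, h1.head ⟨p.1, p.2, h.1.1, h.1.2, rfl⟩, h2⟩

theorem via (A B : Fin 6 → ℕ) (L : List (Fin 6 × Fin 6)) (h : run A L = true)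
    (h2 : A 0 ≤ B 0 ∧ A 1 ≤ B 1 ∧ A 2 ≤ B 2 ∧ A 3 ≤ B 3 ∧ A 4 ≤ B 4 ∧ A 5 ≤ B 5) :
    Solvable fan D0 B :=
  mono _ _ _ (run_ok L A h) (fun v => by fin_cases v <;> simp_all)

theorem big (C : Fin 6 → ℕ) (v : Fin 6) (h : 8 ≤ C v) : Solvable fan D0 C := by
  fin_cases v
  · exact via ![8, 0, 0, 0, 0, 0] C [(0, 5), (0, 5), (5, 4)] (by decide) (by simpa using h)
  · exact via ![0, 8, 0, 0, 0, 0] C [(1, 0), (1, 5), (1, 5), (5, 4)] (by decide) (by simpa using h)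
  · exact via ![0, 0, 8, 0, 0, 0] C [(2, 5), (2, 5), (2, 5), (2, 5), (5, 0), (5, 4)] (by decide)
      (by simpa using h)
  · exact via ![0, 0, 0, 8, 0, 0] C [(3, 4), (3, 5), (3, 5), (5, 0)] (by decide) (by simpa using h)
  · exact via ![0, 0, 0, 0, 8, 0] C [(4, 5), (4, 5), (5, 0)] (by decide) (by simpa using h)
  · exact via ![0, 0, 0, 0, 0, 8] C [(5, 0), (5, 4)] (by decide) (by simpa using h)

def wt (A : Fin 6 → ℕ) : ℕ := 4 * A 0 + 2 * A 1 + A 2 + 2 * A 3 + 4 * A 4 + 2 * A 5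

theorem seven : ¬ Solvable fan D0 ![0, 0, 7, 0, 0, 0] := by
  rintro ⟨B, h1, h2⟩
  have key : ∀ B, Relation.ReflTransGen (Step fan) ![0, 0, 7, 0, 0, 0] B → wt B ≤ 7 := by
    intro B h
    induction h with
    | refl => decide
    | tail _ h ih =>
      obtain ⟨u, v, huv, h5, rfl⟩ := h
      fin_cases u <;> fin_cases v <;> first | exact absurd huv (by decide) | (simp [wt, move] at h5 ih ⊢; omega)
  have := key B h1
  have h0 := h2 0
  have h4 := h2 4
  simp [D0] at h0 h4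
  unfold wt at this
  omega

theorem small (C : Fin 6 → ℕ) (h1 : C 1 ≤ 1) (h2 : C 2 ≤ 1) (h3 : C 3 ≤ 1) (h5 : C 5 ≤ 1)
    (h : 7 ≤ ∑ v, C v) : Solvable fan D0 C := by
  rw [Fin.sum_univ_six] at h
  by_cases a : 1 ≤ C 0 ∧ 1 ≤ C 4
  · exact via ![1, 0, 0, 0, 1, 0] C [] (by decide) (by simpa using a)
  by_cases b : 5 ≤ C 0
  · exact via ![5, 0, 0, 0, 0, 0] C [(0, 5), (0, 5), (5, 4)] (by decide) (by simpa using b)
  by_cases c : 5 ≤ C 4
  · exact via ![0, 0, 0, 0, 5, 0] C [(4, 5), (4, 5), (5, 0)] (by decide) (by simpa using c)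
  by_cases d : 3 ≤ C 0 ∧ 1 ≤ C 5
  · exact via ![3, 0, 0, 0, 0, 1] C [(0, 5), (5, 4)] (by decide) (by simpa using d)
  by_cases e : 3 ≤ C 4 ∧ 1 ≤ C 5
  · exact via ![0, 0, 0, 0, 3, 1] C [(4, 5), (5, 0)] (by decide) (by simpa using e)
  by_cases f : 3 ≤ C 0
  · exact via ![3, 1, 1, 1, 0, 0] C [(0, 1), (1, 2), (2, 3), (3, 4)] (by decide) (by simp; omega)
  · exact via ![0, 1, 1, 1, 3, 0] C [(4, 3), (3, 2), (2, 1), (1, 0)] (by decide) (by simp; omega)

theorem result : ∃ (n : ℕ) (G : SimpleGraph (Fin n)) (D C : Fin n → ℕ), G.Connected ∧ Chordal G ∧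
    Extremal G D C ∧ ∀ C' : Fin n → ℕ, ¬ Solvable G D C' → (∀ v, ¬ Simplicial G v → C' v ≤ 1) →
      ∑ v, C' v < ∑ v, C v := by
  classical
  have hb : BddAbove {k | ∃ C, ¬ Solvable fan D0 C ∧ ∑ v, C v = k} := by
    refine ⟨42, ?_⟩
    rintro _ ⟨C, hC, rfl⟩
    have : ∀ v, C v ≤ 7 := fun v => by
      by_contra h
      exact hC (big C v (by omega))
    calc ∑ v, C v ≤ ∑ _v : Fin 6, 7 := sum_le_sum (fun v _ => this v)
      _ = 42 := by simp
  obtain ⟨C, hC, hs⟩ := Nat.sSup_mem (s := {k | ∃ C, ¬ Solvable fan D0 C ∧ ∑ v, C v = k})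
    ⟨_, _, seven, rfl⟩ hb
  have hmax : ∀ C', ¬ Solvable fan D0 C' → ∑ v, C' v ≤ ∑ v, C v :=
    fun C' h => hs ▸ le_csSup hb ⟨C', h, rfl⟩
  refine ⟨6, fan, D0, C, by decide +kernel, chordal, ⟨⟨hC, fun v => ?_⟩, fun C' h => hmax C' h.1⟩,
    fun C' h h' => ?_⟩
  · by_contra h
    have := hmax _ h
    simp [sum_add_distrib] at this
  · have h7 := hmax _ seven
    have ns : ∀ v a b : Fin 6, fan.Adj v a → fan.Adj v b → a ≠ b → ¬ fan.Adj a b → C' v ≤ 1 :=
      fun v a b h1 h2 h3 h4 => h' v (fun hv => h4 (hv h1 h2 h3))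
    by_contra hc
    refine h (small C' (ns 1 0 2 ?_ ?_ ?_ ?_) (ns 2 1 3 ?_ ?_ ?_ ?_) (ns 3 2 4 ?_ ?_ ?_ ?_)
      (ns 5 0 2 ?_ ?_ ?_ ?_) ?_)
    all_goals first | decide | skip
    exact le_trans (le_trans (by decide) h7) (not_lt.1 hc)

end Pool.Agent.Results.MP_294a3d_co.Fan
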